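import Pool.Agent.X166.BZD

/-!
# Gaussian measure and balancing constants of translated convex bodies

Q1 of the problem has a positive answer.
-/

set_option autoImplicit false

namespace Pool.Agent.Results.MP_ff773e_gt.BestTranslate

open MeasureTheory ProbabilityTheory Set
open scoped ENNReal Pointwise

/-- `β(B, V)`: the supremum over all `n`-tuples `u` of vectors of the closed Euclidean unit ball of
the minimum over all signs of the gauge of the signed sum. -/
noncomputable def beta {n : ℕ} (V : Set (EuclideanSpace ℝ (Fin n))) : ℝ≥0∞ :=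
  ⨆ u : Fin n → Metric.closedBall (0 : EuclideanSpace ℝ (Fin n)) 1, ⨅ ε : Fin n → ℤˣ,
    ENNReal.ofReal (gauge V (∑ i, ((ε i : ℤ) : ℝ) • (u i : EuclideanSpace ℝ (Fin n))))

/-- Q1 -/
def Q1 : Prop := ∃ f : ℝ → ℝ, AntitoneOn f (Ioo 0 1) ∧ (∀ p ∈ Ioo (0 : ℝ) 1, 0 < f p) ∧
  ∀ n : ℕ, 1 ≤ n → ∀ V : Set (EuclideanSpace ℝ (Fin n)), Convex ℝ V → IsCompact V →
    (interior V).Nonempty →
      (⨅ x ∈ {x : EuclideanSpace ℝ (Fin n) | 0 ∈ interior (x +ᵥ V)}, beta (x +ᵥ V)) ≤
        ⨅ y : EuclideanSpace ℝ (Fin n),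
          ENNReal.ofReal (f (stdGaussian (EuclideanSpace ℝ (Fin n)) (y +ᵥ V)).toReal)

/-- an explicit bound -/
noncomputable def bound (p : ℝ) : ℝ := 100 * √2 * (1 + 4 * √(Real.log (100 / p ^ 2)) / p ^ 2)

/-- **Positive answer to Q1**, together with an explicit bound valid for closed convex sets and any
number of vectors: some translate of `V` balances all vectors of the unit ball, with a constant
controlled by the Gaussian measure of any given translate of `V`. -/
theorem result : Q1 ∧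
    ∀ (n : ℕ) (V : Set (EuclideanSpace ℝ (Fin n))), Convex ℝ V → IsClosed V →
      ∀ y : EuclideanSpace ℝ (Fin n),
      0 < (stdGaussian (EuclideanSpace ℝ (Fin n)) (y +ᵥ V)).toReal →
      ∃ x : EuclideanSpace ℝ (Fin n), 0 ∈ interior (x +ᵥ V) ∧
      ∀ (m : ℕ) (u : Fin m → EuclideanSpace ℝ (Fin n)), (∀ i, ‖u i‖ ≤ 1) →
        ∃ ε : Fin m → ℝ, (∀ i, ε i = 1 ∨ ε i = -1) ∧
          ∑ i, ε i • u i ∈
            bound (stdGaussian (EuclideanSpace ℝ (Fin n)) (y +ᵥ V)).toReal • (x +ᵥ V) := by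
  constructor
  · refine ⟨Pool.Agent.X166.BZ.bd, fun p hp q _ hpq => Pool.Agent.X166.BZ.bd_anti hp.1 hpq,
      fun p hp => Pool.Agent.X166.BZ.bd_pos p hp.1, ?_⟩
    intro n _ V hc hV hne
    refine le_iInf fun y => ?_
    have hint : (interior (y +ᵥ V)).Nonempty := by
      rw [interior_vadd]
      exact hne.vadd_set
    have hp := Pool.Agent.X166.BZ.ga_pos n (y +ᵥ V) hint
    obtain ⟨x, hx, H⟩ := Pool.Agent.X166.BZ.translate_balance n V hV.isClosed hc y hp
    refine (iInf₂_le x hx).trans ?_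
    exact Pool.Agent.X166.BZ.beta_le (x +ᵥ V) _ (Pool.Agent.X166.BZ.bd_pos _ hp)
      (fun u hu => H n u hu)
  · intro n V hc hV y hp
    obtain ⟨x, hx, H⟩ := Pool.Agent.X166.BZ.translate_balance n V hV hc y hp
    refine ⟨x, hx, fun m u hu => ?_⟩
    obtain ⟨ε, he, h⟩ := H m u hu
    refine ⟨ε, he, _, h, ?_⟩
    have hb0 := Pool.Agent.X166.BZ.bd_pos _ hp
    show Pool.Agent.X166.BZ.bd _ • (Pool.Agent.X166.BZ.bd _)⁻¹ • _ = _
    rw [smul_smul, mul_inv_cancel₀ hb0.ne', one_smul]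

end Pool.Agent.Results.MP_ff773e_gt.BestTranslate
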